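import Pool.Agent.H80.JD.Basic

set_option autoImplicit false

namespace Pool.Agent.H65.JD

open Finset Filter Topology Pool.Agent.H80.JD

theorem ena : T_ENA := by
  intro κ α hk hk1 ha h1 h2
  have hJ0 : (1 / α) ≤ (⌈1 / α⌉₊ : ℝ) := Nat.le_ceil _
  set J : ℝ := (⌈1 / α⌉₊ : ℝ) with hJ
  have hpos : 0 < 1 / α := by positivity
  have hJpos : 0 < J := hpos.trans_le hJ0
  have hJα : 1 ≤ J * α := by
    have := mul_le_mul_of_nonneg_right hJ0 ha.le
    rwa [one_div, inv_mul_cancel₀ ha.ne'] at this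
  have hlog2 : 0.6931471803 < Real.log 2 := Real.log_two_gt_d9
  have hL0 : 0 ≤ - Real.log κ := by
    have := Real.log_nonpos hk.le hk1
    linarith
  have e1 : Real.log (Real.exp 1 / κ) = 1 - Real.log κ := by
    rw [Real.log_div (Real.exp_pos 1).ne' hk.ne', Real.log_exp]
  have e1024 : Real.log 1024 = 10 * Real.log 2 := by
    rw [show (1024 : ℝ) = 2 ^ (10 : ℕ) by norm_num, Real.log_pow]; norm_num
  have e2 : Real.log (Real.exp 1 / (1024 * κ ^ 2)) = 1 - 10 * Real.log 2 - 2 * Real.log κ := by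
    rw [Real.log_div (Real.exp_pos 1).ne' (by positivity), Real.log_exp,
      Real.log_mul (by norm_num) (by positivity), Real.log_pow, e1024]
    push_cast; ring
  have e3 : Real.log ((1 / 8 : ℝ) ^ ⌈1 / α⌉₊) = - (3 * J * Real.log 2) := by
    have e8 : Real.log (1 / 8 : ℝ) = - (3 * Real.log 2) := by
      rw [show (1 / 8 : ℝ) = (2 ^ (3 : ℕ))⁻¹ by norm_num, Real.log_inv, Real.log_pow]
      push_cast; ring
    rw [Real.log_pow, e8]
    ring
  rw [e1] at h1
  rw [e2, e3]
  have hk2 : 0 < κ ^ 2 := by positivity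
  -- middle term
  have hm : 1024 * κ ^ 2 * (1 - 10 * Real.log 2 - 2 * Real.log κ) < α * Real.log 2 := by
    have h3 : 1024 * κ ^ 2 * (1 - 10 * Real.log 2 - 2 * Real.log κ) <
        4096 * κ ^ 2 * (1 - Real.log κ) * Real.log 2 := by
      nlinarith [mul_nonneg hk2.le hL0, mul_nonneg (mul_nonneg hk2.le hL0)
        (show (0:ℝ) ≤ Real.log 2 - 0.69 by linarith), mul_pos hk2 (show (0:ℝ) < Real.log 2 by linarith)]
    have h4 := mul_le_mul_of_nonneg_right h1 (show (0:ℝ) ≤ Real.log 2 by linarith)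
    exact h3.trans_le h4
  have hm2 := mul_lt_mul_of_pos_left hm hJpos
  have h5 : Real.log 2 ≤ J * α * Real.log 2 := by
    nlinarith
  nlinarith

end Pool.Agent.H65.JD
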