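import Pool.Agent.H80.JD.Basic

set_option autoImplicit false

namespace Pool.Agent.H65.JD

open Finset Filter Topology Pool.Agent.H80.JD

theorem nca (hWC : T_WC) : T_NCA := by
  intro n M J
  induction J with
  | zero => simp [chainsA]
  | succ j ih =>
    obtain ⟨ih1, ih2⟩ := ih
    constructor
    · have h1 : (chainsA n M (j + 1)).card ≤
          (chainsA n M j).card * (2 ^ (2 ^ j) * n.choose M) := by
        rw [chainsA]
        apply card_biUnion_le_card_mul
        intro L hL
        refine card_image_le.trans ?_
        have h2 := hWC n (Fin L.length → Bool) (lab L) M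
        have h3 : Fintype.card (Fin L.length → Bool) = 2 ^ j := by
          rw [Fintype.card_fun, Fintype.card_bool, Fintype.card_fin, ih2 L hL]
        rw [h3] at h2
        exact h2
      calc (chainsA n M (j + 1)).card ≤
            (chainsA n M j).card * (2 ^ (2 ^ j) * n.choose M) := h1
        _ ≤ (2 ^ (2 ^ j) * (n.choose M) ^ j) * (2 ^ (2 ^ j) * n.choose M) :=
            Nat.mul_le_mul_right _ ih1
        _ = 2 ^ (2 ^ (j + 1)) * (n.choose M) ^ (j + 1) := by
            rw [pow_succ 2 j, pow_mul, pow_succ (n.choose M) j]; ring
    · intro L hL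
      rw [chainsA, mem_biUnion] at hL
      obtain ⟨L', hL', h2⟩ := hL
      rw [mem_image] at h2
      obtain ⟨D, _, rfl⟩ := h2
      rw [List.length_cons, ih2 L' hL']

end Pool.Agent.H65.JD
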