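import Pool.Agent.H80.JD.Basic

set_option autoImplicit false

namespace Pool.Agent.H65.JD

open Finset Filter Topology Pool.Agent.H80.JD

/-- the discordant pairs -/
def disc {n M : ℕ} (a b : Fin M → Fin n) (h : Fin n → Bool) : Finset (Fin M) :=
  univ.filter (fun k => h (a k) ≠ h (b k))

lemma swp_a {n M : ℕ} {a b : Fin M → Fin n} (ha : Function.Injective a)
    (hab : ∀ k l, a k ≠ b l) (A : Finset (Fin M)) (h : Fin n → Bool) (k : Fin M) :
    swp a b A h (a k) = if k ∈ A then !(h (a k)) else h (a k) := by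
  unfold swp
  have : (∃ l ∈ A, a k = a l ∨ a k = b l) ↔ k ∈ A := by
    constructor
    · rintro ⟨l, hl, h1 | h1⟩
      · rwa [ha h1]
      · exact absurd h1 (hab k l)
    · intro hk
      exact ⟨k, hk, Or.inl rfl⟩
  simp only [this]

lemma swp_b {n M : ℕ} {a b : Fin M → Fin n} (hb : Function.Injective b)
    (hab : ∀ k l, a k ≠ b l) (A : Finset (Fin M)) (h : Fin n → Bool) (k : Fin M) :
    swp a b A h (b k) = if k ∈ A then !(h (b k)) else h (b k) := by
  unfold swp
  have : (∃ l ∈ A, b k = a l ∨ b k = b l) ↔ k ∈ A := by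
    constructor
    · rintro ⟨l, hl, h1 | h1⟩
      · exact absurd h1.symm (hab l k)
      · rwa [hb h1]
    · intro hk
      exact ⟨k, hk, Or.inr rfl⟩
  simp only [this]

lemma swp_swp {n M : ℕ} (a b : Fin M → Fin n) (A : Finset (Fin M)) (h : Fin n → Bool) :
    swp a b A (swp a b A h) = h := by
  funext c
  unfold swp
  by_cases hc : ∃ k ∈ A, c = a k ∨ c = b k
  · simp only [hc, if_true, Bool.not_not]
  · simp only [hc, if_false]

lemma disc_swp {n M : ℕ} {a b : Fin M → Fin n} (ha : Function.Injective a)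
    (hb : Function.Injective b) (hab : ∀ k l, a k ≠ b l) (A : Finset (Fin M))
    (h : Fin n → Bool) : disc a b (swp a b A h) = disc a b h := by
  ext k
  unfold disc
  rw [mem_filter, mem_filter, swp_a ha hab, swp_b hb hab]
  by_cases hk : k ∈ A
  · simp only [hk, if_true, mem_univ, true_and]
    cases h (a k) <;> cases h (b k) <;> simp
  · simp only [hk, if_false]

lemma ip_swp {n M : ℕ} {a b : Fin M → Fin n} (ha : Function.Injective a)
    (hb : Function.Injective b) (hab : ∀ k l, a k ≠ b l) (A : Finset (Fin M))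
    (h : Fin n → Bool) (hA : A ⊆ disc a b h) (D : Fin n → Bool) (hD : ∀ k, D (a k) = D (b k)) :
    ip (swp a b A h) D = ip h D := by
  have h1 : ip h D - ip (swp a b A h) D =
      ∑ c, if (∃ k ∈ A, c = a k ∨ c = b k) then 2 * sg (h c) * sg (D c) else 0 := by
    unfold ip
    rw [← Finset.sum_sub_distrib]
    refine Finset.sum_congr rfl (fun c _ => ?_)
    unfold swp
    by_cases hc : ∃ k ∈ A, c = a k ∨ c = b k
    · simp only [hc, if_true, sg_not]; ring
    · simp only [hc, if_false]; ring
  have h2 : (univ.filter (fun c => ∃ k ∈ A, c = a k ∨ c = b k)) = A.image a ∪ A.image b := by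
    ext c
    simp only [mem_filter, mem_univ, true_and, mem_union, mem_image]
    constructor
    · rintro ⟨k, hk, h3 | h3⟩
      · exact Or.inl ⟨k, hk, h3.symm⟩
      · exact Or.inr ⟨k, hk, h3.symm⟩
    · rintro (⟨k, hk, h3⟩ | ⟨k, hk, h3⟩)
      · exact ⟨k, hk, Or.inl h3.symm⟩
      · exact ⟨k, hk, Or.inr h3.symm⟩
  have h3 : Disjoint (A.image a) (A.image b) := by
    rw [Finset.disjoint_left]
    intro c hc hc'
    rw [mem_image] at hc hc'
    obtain ⟨k, _, rfl⟩ := hc
    obtain ⟨l, _, hl⟩ := hc'
    exact hab k l hl.symm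
  rw [← Finset.sum_filter, h2, Finset.sum_union h3, Finset.sum_image (fun _ _ _ _ h => ha h),
    Finset.sum_image (fun _ _ _ _ h => hb h), ← Finset.sum_add_distrib] at h1
  have h4 : ∑ k ∈ A, (2 * sg (h (a k)) * sg (D (a k)) + 2 * sg (h (b k)) * sg (D (b k))) = 0 := by
    refine Finset.sum_eq_zero (fun k hk => ?_)
    have h5 := hA hk
    unfold disc at h5
    rw [mem_filter] at h5
    rw [hD k]
    have h6 : sg (h (a k)) = - sg (h (b k)) := by
      have h7 := h5.2
      revert h7
      cases h (a k) <;> cases h (b k) <;> simp [sg]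
    rw [h6]; ring
  rw [h4] at h1
  linarith

/-- the counting argument for one class -/
lemma class_bound {n M : ℕ} (hSW : T_SW) (L : List (Fin n → Bool)) (D : Fin n → Bool) (K : ℝ)
    (hM : 1 ≤ M) (hK : 0 ≤ K) {a b : Fin M → Fin n} (ha : Function.Injective a)
    (hb : Function.Injective b) (hD : ∀ k, D (a k) = true ∧ D (b k) = false)
    (hL : ∀ D' ∈ L, ∀ k, D' (a k) = D' (b k)) (U : Finset (Fin M)) (hU : M ≤ 4 * U.card) :
    (((E (RK K) (D :: L)).filter (fun h => disc a b h = U)).card : ℝ) ≤
      (K / 2 + 1) * (2 / Real.sqrt M) * ((E (RK K) L).filter (fun h => disc a b h = U)).card := by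
  classical
  have hab : ∀ k l, a k ≠ b l := by
    intro k l h
    have h1 := (hD k).1
    rw [h, (hD l).2] at h1
    exact absurd h1 (by decide)
  have hU1 : 1 ≤ U.card := by omega
  set F := (E (RK K) L).filter (fun h => disc a b h = U) with hF
  have hG : (E (RK K) (D :: L)).filter (fun h => disc a b h = U) =
      F.filter (fun h => RK K (ip h D)) := by
    ext h
    rw [hF, mem_filter, mem_filter, mem_filter, mem_E, mem_E]
    simp only [List.mem_cons, forall_eq_or_imp]
    tauto
  rw [hG]
  -- stability of `F`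
  have hst : ∀ A ∈ U.powerset, ∀ h ∈ F, swp a b A h ∈ F := by
    intro A hA h hh
    rw [mem_powerset] at hA
    rw [hF, mem_filter, mem_E] at hh ⊢
    obtain ⟨⟨h1, h2⟩, h3⟩ := hh
    have hA' : A ⊆ disc a b h := by rw [h3]; exact hA
    refine ⟨⟨?_, ?_⟩, ?_⟩
    · rw [ip_swp ha hb hab A h hA' (zero n) (fun k => rfl)]; exact h1
    · intro D' hD'
      rw [ip_swp ha hb hab A h hA' D' (hL D' hD')]; exact h2 D' hD'
    · rw [disc_swp ha hb hab]; exact h3
  -- double counting
  have hdc : ∑ h ∈ F, (U.powerset.filter (fun A => RK K (ip (swp a b A h) D))).card =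
      2 ^ U.card * (F.filter (fun h => RK K (ip h D))).card := by
    have e1 : ∑ h ∈ F, (U.powerset.filter (fun A => RK K (ip (swp a b A h) D))).card =
        ∑ A ∈ U.powerset, (F.filter (fun h => RK K (ip (swp a b A h) D))).card := by
      simp only [Finset.card_filter]
      exact Finset.sum_comm
    rw [e1, ← Finset.card_powerset, ← smul_eq_mul, ← Finset.sum_const]
    refine Finset.sum_congr rfl (fun A hA => ?_)
    refine Finset.card_bij' (fun h _ => swp a b A h) (fun h _ => swp a b A h) ?_ ?_ ?_ ?_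
    · intro h hh
      rw [mem_filter] at hh ⊢
      exact ⟨hst A hA h hh.1, hh.2⟩
    · intro h hh
      rw [mem_filter] at hh ⊢
      refine ⟨hst A hA h hh.1, ?_⟩
      rw [swp_swp]; exact hh.2
    · intro h _
      exact swp_swp a b A h
    · intro h _
      exact swp_swp a b A h
  have hb1 : ∀ h ∈ F, ((U.powerset.filter (fun A => RK K (ip (swp a b A h) D))).card : ℝ) ≤
      (K / 2 + 1) * (2 ^ U.card / Real.sqrt U.card) := by
    intro h hh
    rw [hF, mem_filter] at hh
    have h1 := hSW n M a b D h U K ha hb hD (by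
      intro k hk
      rw [← hh.2] at hk
      unfold disc at hk
      rw [mem_filter] at hk
      exact hk.2) hK hU1
    rw [Nat.subtype_card (U.powerset.filter (fun A => RK K (ip (swp a b A h) D))) (by
      intro A
      rw [mem_filter, mem_powerset]
      rfl)] at h1
    exact h1
  have hs : (2 : ℝ) ^ U.card * ((F.filter (fun h => RK K (ip h D))).card : ℝ) ≤
      F.card * ((K / 2 + 1) * (2 ^ U.card / Real.sqrt U.card)) := by
    have e2 : ((∑ h ∈ F, (U.powerset.filter (fun A => RK K (ip (swp a b A h) D))).card : ℕ) : ℝ) =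
        2 ^ U.card * ((F.filter (fun h => RK K (ip h D))).card : ℝ) := by
      rw [hdc]; push_cast; ring
    rw [← e2]
    push_cast
    rw [← nsmul_eq_mul]
    exact Finset.sum_le_card_nsmul _ _ _ hb1
  have hUp : (0 : ℝ) < U.card := by exact_mod_cast hU1
  have hsq : 0 < Real.sqrt U.card := Real.sqrt_pos.mpr hUp
  have hMp : (0 : ℝ) < M := by exact_mod_cast hM
  have hsM : 0 < Real.sqrt M := Real.sqrt_pos.mpr hMp
  have hle : Real.sqrt M ≤ 2 * Real.sqrt U.card := by
    rw [show (2 : ℝ) * Real.sqrt U.card = Real.sqrt (4 * U.card) by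
      rw [Real.sqrt_mul (by norm_num), show (4 : ℝ) = 2 ^ 2 by norm_num,
        Real.sqrt_sq (by norm_num)]]
    apply Real.sqrt_le_sqrt
    exact_mod_cast hU
  have hinv : 1 / Real.sqrt U.card ≤ 2 / Real.sqrt M := by
    rw [div_le_div_iff₀ hsq hsM]
    linarith
  have h2p : (0 : ℝ) < 2 ^ U.card := by positivity
  have hfin : (2 : ℝ) ^ U.card * ((F.filter (fun h => RK K (ip h D))).card : ℝ) ≤
      2 ^ U.card * ((K / 2 + 1) * (2 / Real.sqrt M) * F.card) := by
    refine hs.trans ?_
    have h3 : (F.card : ℝ) * ((K / 2 + 1) * (2 ^ U.card / Real.sqrt U.card)) =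
        2 ^ U.card * ((K / 2 + 1) * (1 / Real.sqrt U.card) * F.card) := by
      field_simp
    rw [h3]
    have h4 : (K / 2 + 1) * (1 / Real.sqrt U.card) ≤ (K / 2 + 1) * (2 / Real.sqrt M) :=
      mul_le_mul_of_nonneg_left hinv (by linarith)
    exact mul_le_mul_of_nonneg_left (mul_le_mul_of_nonneg_right h4 (Nat.cast_nonneg _)) h2p.le
  exact le_of_mul_le_mul_left hfin h2p

theorem rr (hPA : T_PA) (hXU : T_XU) (hSW : T_SW) : T_RR := by
  classical
  intro n M L D K hw hM hK
  obtain ⟨a, b, ha, hb, hab0⟩ := hPA n (Fin L.length → Bool) (lab L) D M hw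
  have hD : ∀ k, D (a k) = true ∧ D (b k) = false := fun k => (hab0 k).2
  have hL : ∀ D' ∈ L, ∀ k, D' (a k) = D' (b k) := by
    intro D' hD' k
    obtain ⟨i, hi⟩ := List.get_of_mem hD'
    have h1 := congrFun (hab0 k).1 i
    unfold lab at h1
    rwa [hi] at h1
  have hab : ∀ k l, a k ≠ b l := by
    intro k l h
    have h1 := (hD k).1
    rw [h, (hD l).2] at h1
    exact absurd h1 (by decide)
  have hMp : (0 : ℝ) < M := by exact_mod_cast hM
  have hsM : 0 < Real.sqrt M := Real.sqrt_pos.mpr hMp
  set C : ℝ := (K / 2 + 1) * (2 / Real.sqrt M) with hC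
  have hCn : 0 ≤ C := by rw [hC]; positivity
  set P : Finset (Finset (Fin M)) := univ.filter (fun U => M ≤ 4 * U.card) with hP
  -- split
  have hsplit : (E (RK K) (D :: L)).card =
      ((E (RK K) (D :: L)).filter (fun h => disc a b h ∈ P)).card +
      ((E (RK K) (D :: L)).filter (fun h => ¬ disc a b h ∈ P)).card :=
    (Finset.card_filter_add_card_filter_not _).symm
  have hsmall : (((E (RK K) (D :: L)).filter (fun h => ¬ disc a b h ∈ P)).card : ℝ) ≤
      2 ^ n * (9 / 10) ^ M := by
    refine le_trans ?_ (hXU n M a b ha hb hab)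
    have : ((E (RK K) (D :: L)).filter (fun h => ¬ disc a b h ∈ P)) ⊆
        (univ.filter (fun h : Fin n → Bool =>
          4 * (univ.filter (fun k => h (a k) ≠ h (b k))).card < M)) := by
      intro h hh
      rw [mem_filter, hP, mem_filter] at hh
      rw [mem_filter]
      refine ⟨mem_univ _, ?_⟩
      have h1 := hh.2
      simp only [mem_univ, true_and, not_le] at h1
      exact h1
    exact_mod_cast Finset.card_le_card this
  have hbig : (((E (RK K) (D :: L)).filter (fun h => disc a b h ∈ P)).card : ℝ) ≤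
      C * (E (RK K) L).card := by
    have e1 : ((E (RK K) (D :: L)).filter (fun h => disc a b h ∈ P)).card =
        ∑ U ∈ P, (((E (RK K) (D :: L)).filter (fun h => disc a b h ∈ P)).filter
          (fun h => disc a b h = U)).card :=
      Finset.card_eq_sum_card_fiberwise (fun h hh => (mem_filter.mp hh).2)
    have e2 : ∀ U ∈ P, (((E (RK K) (D :: L)).filter (fun h => disc a b h ∈ P)).filter
          (fun h => disc a b h = U)).card =
        ((E (RK K) (D :: L)).filter (fun h => disc a b h = U)).card := by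
      intro U hU
      congr 1
      ext h
      simp only [mem_filter]
      constructor
      · rintro ⟨⟨h1, _⟩, h3⟩; exact ⟨h1, h3⟩
      · rintro ⟨h1, h3⟩; exact ⟨⟨h1, by rw [h3]; exact hU⟩, h3⟩
    rw [e1, Finset.sum_congr rfl e2]
    push_cast
    have e3 : ∀ U ∈ P, (((E (RK K) (D :: L)).filter (fun h => disc a b h = U)).card : ℝ) ≤
        C * ((E (RK K) L).filter (fun h => disc a b h = U)).card := by
      intro U hU
      rw [hP, mem_filter] at hU
      exact class_bound hSW L D K hM hK ha hb hD hL U hU.2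
    refine (Finset.sum_le_sum e3).trans ?_
    rw [← Finset.mul_sum]
    refine mul_le_mul_of_nonneg_left ?_ hCn
    have e4 : (E (RK K) L).card =
        ∑ U ∈ (univ : Finset (Finset (Fin M))), ((E (RK K) L).filter
          (fun h => disc a b h = U)).card :=
      Finset.card_eq_sum_card_fiberwise (fun h _ => mem_univ _)
    rw [e4]
    push_cast
    exact Finset.sum_le_sum_of_subset_of_nonneg (subset_univ _) (fun _ _ _ => Nat.cast_nonneg _)
  rw [hsplit]
  push_cast
  linarith

end Pool.Agent.H65.JD
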